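import Pool.Agent.Helper20.RG.St1

/-!
# Project RG, module YC: continuity and approximate invariance of the chord averages
-/

set_option autoImplicit false

open MeasureTheory Set Filter Topology
open scoped ENNReal RealInnerProductSpace

namespace Pool.Agent.Helper9.RG

open Pool.Agent.Helper20.RG
open Pool.Agent.Helper68.LM (Pl BB Bd Av HL ft fm DQ)

theorem convex_Sq (x : Pl) (r : ℝ) : Convex ℝ (Sq x r) := by
  intro y hy z hz a b ha hb hab
  change |y 0 - x 0| ≤ r ∧ |y 1 - x 1| ≤ r at hy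
  change |z 0 - x 0| ≤ r ∧ |z 1 - x 1| ≤ r at hz
  change |(a • y + b • z) 0 - x 0| ≤ r ∧ |(a • y + b • z) 1 - x 1| ≤ r
  have key : ∀ i : Fin 2, |y i - x i| ≤ r → |z i - x i| ≤ r → |(a • y + b • z) i - x i| ≤ r := by
    intro i h1 h2
    have e : (a • y + b • z) i - x i = a * (y i - x i) + b * (z i - x i) := by
      simp only [PiLp.add_apply, PiLp.smul_apply, smul_eq_mul]
      have : x i = (a + b) * x i := by rw [hab, one_mul]
      linear_combination (-1 : ℝ) * this
    rw [e]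
    calc |a * (y i - x i) + b * (z i - x i)| ≤ |a * (y i - x i)| + |b * (z i - x i)| := abs_add_le _ _
      _ = a * |y i - x i| + b * |z i - x i| := by
          rw [abs_mul, abs_mul, abs_of_nonneg ha, abs_of_nonneg hb]
      _ ≤ a * r + b * r := by gcongr
      _ = r := by rw [← add_mul, hab, one_mul]
  exact ⟨key 0 hy.1 hz.1, key 1 hy.2 hz.2⟩

/-- a bounded measurable function with bounded support is integrable -/
theorem bb_integrable {g : Pl → ℝ} (hg : BB g) : Integrable g := by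
  obtain ⟨hm, K, hK, hK'⟩ := hg
  have h1 : IntegrableOn g (Metric.closedBall (0 : Pl) K) := by
    refine Measure.integrableOn_of_bounded (M := K) measure_closedBall_lt_top.ne
      hm.aestronglyMeasurable ?_
    exact ae_of_all _ fun x => by rw [Real.norm_eq_abs]; exact hK x
  have h2 : g = (Metric.closedBall (0 : Pl) K).indicator g := by
    funext x
    by_cases hx : x ∈ Metric.closedBall (0 : Pl) K
    · rw [indicator_of_mem hx]
    · rw [indicator_of_notMem hx]
      rw [mem_closedBall_zero_iff, not_le] at hx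
      exact hK' x hx
  rw [h2]
  exact (integrable_indicator_iff Metric.isClosed_closedBall.measurableSet).2 h1

theorem av_bx_eq (ρ : ℝ) (hρ : 0 < ρ) (g : Pl → ℝ) (hS : MeasurableSet (Sq (0 : Pl) (1 / 2))) (x : Pl) :
    Av bx ρ g x = |(ρ ^ (Module.finrank ℝ Pl))⁻¹| *
      ∫ z : Pl, (Sq (0 : Pl) (1 / 2)).indicator (fun _ => (1 : ℝ)) (ρ⁻¹ • (x - z)) * g z := by
  set F : Pl → ℝ := fun z => (Sq (0 : Pl) (1 / 2)).indicator (fun _ => (1 : ℝ)) (ρ⁻¹ • (x - z)) * g z
    with hF
  have h1 : Av bx ρ g x = ∫ y : Pl, F (x - ρ • y) := by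
    unfold Av bx
    rw [← integral_indicator hS]
    congr 1
    funext y
    have e : ρ⁻¹ • (x - (x - ρ • y)) = y := by
      rw [sub_sub_cancel, smul_smul, inv_mul_cancel₀ hρ.ne', one_smul]
    simp only [hF]
    rw [e]
    by_cases hy : y ∈ Sq (0 : Pl) (1 / 2)
    · rw [indicator_of_mem hy, indicator_of_mem hy, one_mul]
    · rw [indicator_of_notMem hy, indicator_of_notMem hy, zero_mul]
  rw [h1, Measure.integral_comp_smul volume (fun y => F (x - y)) ρ, integral_sub_left_eq_self, smul_eq_mul]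

theorem continuous_av_bx (ρ : ℝ) (hρ : 0 < ρ) (g : Pl → ℝ) (hg : BB g)
    (hS : MeasurableSet (Sq (0 : Pl) (1 / 2))) : Continuous (Av bx ρ g) := by
  have h0 : Av bx ρ g = fun x => |(ρ ^ (Module.finrank ℝ Pl))⁻¹| *
      ∫ z : Pl, (Sq (0 : Pl) (1 / 2)).indicator (fun _ => (1 : ℝ)) (ρ⁻¹ • (x - z)) * g z :=
    funext fun x => av_bx_eq ρ hρ g hS x
  rw [h0]
  refine continuous_const.mul ?_
  rw [continuous_iff_continuousAt]
  intro x₀
  have hgi := bb_integrable hg
  have hfr : volume (frontier (Sq (0 : Pl) (1 / 2))) = 0 := (convex_Sq 0 (1 / 2)).addHaar_frontier volume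
  refine continuousAt_of_dominated (bound := fun z => ‖g z‖) ?_ ?_ hgi.norm ?_
  · refine Eventually.of_forall fun x => ?_
    refine AEStronglyMeasurable.mul ?_ hg.1.aestronglyMeasurable
    have hm : Measurable (fun z : Pl => ρ⁻¹ • (x - z)) := by fun_prop
    exact ((measurable_const.indicator hS).comp hm).aestronglyMeasurable
  · refine Eventually.of_forall fun x => ae_of_all _ fun z => ?_
    rw [norm_mul]
    refine mul_le_of_le_one_left (norm_nonneg _) ?_
    refine (norm_indicator_le_norm_self _ _).trans ?_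
    simp
  · have hnull : volume ((fun z : Pl => x₀ - z) ⁻¹' ((fun y : Pl => ρ⁻¹ • y) ⁻¹'
        (frontier (Sq (0 : Pl) (1 / 2))))) = 0 := by
      refine (Measure.measurePreserving_sub_left volume x₀).quasiMeasurePreserving.preimage_null ?_
      rw [Measure.addHaar_preimage_smul volume (inv_ne_zero hρ.ne'), hfr, mul_zero]
    have hae : ∀ᵐ z : Pl, ρ⁻¹ • (x₀ - z) ∉ frontier (Sq (0 : Pl) (1 / 2)) := by
      rw [ae_iff]
      refine measure_mono_null ?_ hnull
      intro z hz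
      exact not_not.1 hz
    filter_upwards [hae] with z hz
    refine ContinuousAt.mul ?_ continuousAt_const
    have hc : ContinuousAt (fun x : Pl => ρ⁻¹ • (x - z)) x₀ := by fun_prop
    have hi : ContinuousAt ((Sq (0 : Pl) (1 / 2)).indicator (fun _ => (1 : ℝ))) (ρ⁻¹ • (x₀ - z)) :=
      continuousOn_const.continuousAt_indicator hz
    exact ContinuousAt.comp (f := fun x : Pl => ρ⁻¹ • (x - z)) hi hc

instance : IsFiniteMeasure bx := by
  unfold bx
  constructor
  rw [Measure.restrict_apply_univ]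
  have hsub : Sq (0 : Pl) (1 / 2) ⊆ Metric.closedBall 0 1 := by
    intro y hy
    have hy' : |y 0 - (0 : Pl) 0| ≤ 1 / 2 ∧ |y 1 - (0 : Pl) 1| ≤ 1 / 2 := hy
    have h0 : (0 : Pl) 0 = 0 := rfl
    have h1 : (0 : Pl) 1 = 0 := rfl
    rw [h0, h1, sub_zero, sub_zero] at hy'
    rw [mem_closedBall_zero_iff, EuclideanSpace.norm_eq, Fin.sum_univ_two]
    rw [Real.sqrt_le_one]
    rw [Real.norm_eq_abs, Real.norm_eq_abs]
    nlinarith [hy'.1, hy'.2, abs_nonneg (y 0), abs_nonneg (y 1)]
  exact (measure_mono hsub).trans_lt measure_closedBall_lt_top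

theorem av_bx_bd (ρ : ℝ) (g : Pl → ℝ) (K : ℝ) (hK : ∀ x, |g x| ≤ K) (h1 : bx univ = 1) (x : Pl) :
    |Av bx ρ g x| ≤ K := by
  have h := norm_integral_le_of_norm_le_const (μ := bx) (f := fun y => g (x - ρ • y)) (C := K)
    (ae_of_all _ fun y => by rw [Real.norm_eq_abs]; exact hK _)
  rw [Measure.real, h1, ENNReal.toReal_one, mul_one] at h
  exact h

theorem cont_E (s : ℝ) : Continuous (fun t : ℝ => t • E s) := by fun_prop

instance (s : ℝ) : IsFiniteMeasure (sg s) := by
  unfold sg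
  infer_instance

theorem av_sg_eq (s t : ℝ) (f : Pl → ℝ) (hf : Continuous f) (x : Pl) :
    Av (sg s) t f x = ∫ r in (-(1 / 2) : ℝ)..(1 / 2), f (x - (t * r) • E s) := by
  unfold Av sg
  rw [integral_map (cont_E s).aemeasurable
    (by
      have : Continuous (fun y : Pl => f (x - t • y)) := by fun_prop
      exact this.aestronglyMeasurable)]
  rw [intervalIntegral.integral_of_le (by norm_num), ← integral_Icc_eq_integral_Ioc]
  simp only [smul_smul]

theorem continuous_av_sg (s t : ℝ) (f : Pl → ℝ) (hf : Continuous f) (K : ℝ) (hK : ∀ x, |f x| ≤ K) :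
    Continuous (Av (sg s) t f) := by
  unfold Av
  refine continuous_of_dominated (bound := fun _ => K) ?_ ?_ (integrable_const K) ?_
  · intro x
    have : Continuous (fun y : Pl => f (x - t • y)) := by fun_prop
    exact this.aestronglyMeasurable
  · intro x
    exact ae_of_all _ fun y => by rw [Real.norm_eq_abs]; exact hK _
  · exact ae_of_all _ fun y => by fun_prop

theorem shift_bound (φ : ℝ → ℝ) (hφ : Continuous φ) (h1 : ∀ r, |φ r| ≤ 1) (δ : ℝ) :
    |(∫ r in (-(1 / 2) : ℝ)..(1 / 2), φ (r - δ)) - ∫ r in (-(1 / 2) : ℝ)..(1 / 2), φ r| ≤ 2 * |δ| := by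
  rw [intervalIntegral.integral_comp_sub_right]
  have hi : ∀ a b : ℝ, IntervalIntegrable φ volume a b := fun a b => hφ.intervalIntegrable a b
  have e : (∫ r in (-(1 / 2) - δ)..(1 / 2 - δ), φ r) - ∫ r in (-(1 / 2) : ℝ)..(1 / 2), φ r =
      (∫ r in (-(1 / 2) - δ)..(-(1 / 2)), φ r) - ∫ r in (1 / 2 - δ)..(1 / 2), φ r := by
    have a1 := intervalIntegral.integral_add_adjacent_intervals (hi (-(1 / 2) - δ) (-(1 / 2)))
      (hi (-(1 / 2)) (1 / 2))
    have a2 := intervalIntegral.integral_add_adjacent_intervals (hi (-(1 / 2) - δ) (1 / 2 - δ))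
      (hi (1 / 2 - δ) (1 / 2))
    linarith
  rw [e]
  have b1 := intervalIntegral.norm_integral_le_of_norm_le_const (f := φ) (C := 1)
    (a := -(1 / 2) - δ) (b := -(1 / 2)) (fun r _ => by rw [Real.norm_eq_abs]; exact h1 r)
  have b2 := intervalIntegral.norm_integral_le_of_norm_le_const (f := φ) (C := 1)
    (a := 1 / 2 - δ) (b := 1 / 2) (fun r _ => by rw [Real.norm_eq_abs]; exact h1 r)
  rw [Real.norm_eq_abs] at b1 b2
  have c1 : -(1 / 2 : ℝ) - (-(1 / 2) - δ) = δ := by ring
  have c2 : (1 / 2 : ℝ) - (1 / 2 - δ) = δ := by ring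
  rw [c1, one_mul] at b1
  rw [c2, one_mul] at b2
  calc |(∫ r in (-(1 / 2) - δ)..(-(1 / 2)), φ r) - ∫ r in (1 / 2 - δ)..(1 / 2), φ r|
      ≤ |∫ r in (-(1 / 2) - δ)..(-(1 / 2)), φ r| + |∫ r in (1 / 2 - δ)..(1 / 2), φ r| := abs_sub _ _
    _ ≤ 2 * |δ| := by linarith

theorem hYC (hPT : StPT) (hMEA : StMEA) : StYC := by
  intro s c m m' ℓ k g hs hℓ hg
  have hS : MeasurableSet (Sq (0 : Pl) (1 / 2)) := (hPT.2.2.2.2.2.2.2 0 (1 / 2) (by norm_num)).1
  have hbx : bx univ = 1 := hMEA.1.2.1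
  obtain ⟨K, hK, _⟩ := hg.2
  have hρ : ∀ m : ℕ, 0 < 2 * (2 : ℝ) ^ (k - (m : ℤ)) := fun m => by positivity
  have hc : ∀ m : ℕ, Continuous (Av bx (2 * (2 : ℝ) ^ (k - (m : ℤ))) g) := fun m =>
    continuous_av_bx _ (hρ m) g hg hS
  have ht : 0 < (2 : ℝ) ^ k * ℓ := by positivity
  refine ⟨?_, ?_⟩
  · have h1 : Continuous (Av (sg s) ((2 : ℝ) ^ k * ℓ) (Av bx (2 * (2 : ℝ) ^ (k - (m : ℤ))) g)) :=
      continuous_av_sg s _ _ (hc m) K (av_bx_bd _ g K hK hbx)
    have h2 : Continuous (fun x : Pl => x - (2 : ℝ) ^ k • c) := by fun_prop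
    exact h1.comp h2
  · intro hg01 x lam
    set t : ℝ := (2 : ℝ) ^ k * ℓ with htdef
    set f₁ : Pl → ℝ := Av bx (2 * (2 : ℝ) ^ (k - (m : ℤ))) g with hf₁
    set f₂ : Pl → ℝ := Av bx (2 * (2 : ℝ) ^ (k - (m' : ℤ))) g with hf₂
    have hfc₁ : Continuous f₁ := hc m
    have hfc₂ : Continuous f₂ := hc m'
    have h01 : ∀ (ρ : ℝ) (z : Pl), 0 ≤ Av bx ρ g z ∧ Av bx ρ g z ≤ 1 := by
      intro ρ z
      refine ⟨integral_nonneg fun y => (hg01 _).1, ?_⟩
      have := av_bx_bd ρ g 1 (fun y => by rw [abs_of_nonneg (hg01 y).1]; exact (hg01 y).2) hbx z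
      exact (le_abs_self _).trans this
    set D : Pl → ℝ := fun z => f₁ z - f₂ z with hD
    have hDc : Continuous D := hfc₁.sub hfc₂
    have hD1 : ∀ z, |D z| ≤ 1 := by
      intro z
      have a1 := h01 (2 * (2 : ℝ) ^ (k - (m : ℤ))) z
      have a2 := h01 (2 * (2 : ℝ) ^ (k - (m' : ℤ))) z
      rw [abs_le]
      constructor
      · show -1 ≤ f₁ z - f₂ z
        linarith [a1.1, a2.2]
      · show f₁ z - f₂ z ≤ 1
        linarith [a1.2, a2.1]
    have hZ : ∀ w : Pl, Z s c m m' ℓ k g w =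
        ∫ r in (-(1 / 2) : ℝ)..(1 / 2), D (w - (2 : ℝ) ^ k • c - (t * r) • E s) := by
      intro w
      have e1 : Z s c m m' ℓ k g w = Av (sg s) t f₁ (w - (2 : ℝ) ^ k • c) -
        Av (sg s) t f₂ (w - (2 : ℝ) ^ k • c) := rfl
      rw [e1, av_sg_eq s t f₁ hfc₁, av_sg_eq s t f₂ hfc₂, ← intervalIntegral.integral_sub]
      · have : Continuous (fun r : ℝ => f₁ (w - (2 : ℝ) ^ k • c - (t * r) • E s)) := by fun_prop
        exact this.intervalIntegrable _ _
      · have : Continuous (fun r : ℝ => f₂ (w - (2 : ℝ) ^ k • c - (t * r) • E s)) := by fun_prop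
        exact this.intervalIntegrable _ _
    set φ : ℝ → ℝ := fun r => D (x - (2 : ℝ) ^ k • c - (t * r) • E s) with hφ
    have hφc : Continuous φ := by
      rw [hφ]
      fun_prop
    have hsh := shift_bound φ hφc (fun r => hD1 _) (lam / t)
    have e2 : Z s c m m' ℓ k g (x + lam • E s) = ∫ r in (-(1 / 2) : ℝ)..(1 / 2), φ (r - lam / t) := by
      rw [hZ]
      apply intervalIntegral.integral_congr
      intro r _
      simp only [hφ]
      congr 1
      have e3 : t * (r - lam / t) = t * r - lam := by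
        field_simp
      rw [e3, sub_smul]
      abel
    rw [e2, hZ x]
    refine hsh.trans (le_of_eq ?_)
    rw [abs_div, abs_of_pos ht, mul_div_assoc]

end Pool.Agent.Helper9.RG
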